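import Pool.Agent.K3h61.CA.Stm

/-!
# Clock auctions: numerical parameters
-/

set_option autoImplicit false
set_option linter.all false

open Finset Filter Topology

namespace Pool.Agent.K3h82.CA

open K3h61.CA

lemma pow_exp (m : ℕ) {c : ℝ} (hc : 0 < c) :
    Tendsto (fun B : ℕ => (B : ℝ) ^ m * Real.exp (-(c * B))) atTop (𝓝 0) := by
  have hcast : Tendsto (fun B : ℕ => (B : ℝ)) atTop atTop := tendsto_natCast_atTop_atTop
  have h1 := ((Real.tendsto_pow_mul_exp_neg_atTop_nhds_zero m).comp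
    (tendsto_id.const_mul_atTop hc)).comp hcast
  have h2 := h1.const_mul ((c ^ m)⁻¹)
  rw [mul_zero] at h2
  refine h2.congr fun B => ?_
  have hcm : c ^ m ≠ 0 := pow_ne_zero _ hc.ne'
  simp only [Function.comp_apply, id_eq, mul_pow]
  field_simp

lemma log_small {K : ℕ} {c : ℝ} (hc : 0 < c) :
    ∀ᶠ B : ℕ in atTop, (K : ℝ) * Real.log B ≤ c * B := by
  have hcast : Tendsto (fun B : ℕ => (B : ℝ)) atTop atTop := tendsto_natCast_atTop_atTop
  have h1 : Tendsto (fun x : ℝ => Real.log x / x) atTop (𝓝 0) := by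
    have := Real.isLittleO_log_id_atTop.tendsto_div_nhds_zero
    simpa using this
  have h2 : ∀ᶠ x : ℝ in atTop, Real.log x / x < c / ((K : ℝ) + 1) :=
    h1.eventually (gt_mem_nhds (div_pos hc (by positivity)))
  filter_upwards [hcast.eventually h2, eventually_ge_atTop 1] with B hB hB1
  have hB0 : (0 : ℝ) < B := by exact_mod_cast hB1
  have hlog : 0 ≤ Real.log B := Real.log_natCast_nonneg B
  rw [div_lt_div_iff₀ hB0 (by positivity)] at hB
  nlinarith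

lemma sum_mu {B k : ℕ} (hB : 2 ≤ B) : (∑ j ∈ range k, mu B j) ≤ 2 * B ^ k := by
  induction k with
  | zero => simp
  | succ k ih =>
    rw [Finset.sum_range_succ]
    have h1 : mu B k = B ^ (k + 1) := rfl
    rw [h1]
    have h2 : 2 * B ^ k ≤ B ^ (k + 1) := by
      rw [pow_succ, mul_comm]
      exact Nat.mul_le_mul_left _ hB
    omega

theorem t_E : S_E := by
  intro T hT
  have hT' : (0 : ℝ) < T := by exact_mod_cast hT
  obtain ⟨ε, hε⟩ : ∃ ε : ℝ, ε = 1 / (100 * (T : ℝ)) := ⟨_, rfl⟩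
  rw [← hε]
  have hε0 : 0 < ε := by rw [hε]; positivity
  have hε2 : 0 < ε ^ 2 / 2 := by positivity
  obtain ⟨K, hK⟩ : ∃ K : ℕ, K = (T + 1) * 2 ^ T := ⟨_, rfl⟩
  have hcast : Tendsto (fun B : ℕ => (B : ℝ)) atTop atTop := tendsto_natCast_atTop_atTop
  have e1 : ∀ᶠ B : ℕ in atTop, 8 / ε ≤ (B : ℝ) := hcast.eventually_ge_atTop _
  have e2 : ∀ᶠ B : ℕ in atTop, 100 * (T : ℝ) ≤ (B : ℝ) := hcast.eventually_ge_atTop _
  have e3 : ∀ᶠ B : ℕ in atTop, ((2 * K : ℕ) : ℝ) * Real.log B ≤ ε ^ 2 / 2 * B := log_small hε2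
  have e4 : ∀ᶠ B : ℕ in atTop, (B : ℝ) ^ 0 * Real.exp (-(ε ^ 2 / 2 * B)) < 1 / 3 :=
    (pow_exp 0 hε2).eventually (gt_mem_nhds (by norm_num))
  have e5 : ∀ᶠ B : ℕ in atTop, (B : ℝ) ^ 0 * Real.exp (-(ε ^ 2 / 2 * B)) < 1 / (2 * T) :=
    (pow_exp 0 hε2).eventually (gt_mem_nhds (by positivity))
  have e6 : ∀ᶠ B : ℕ in atTop, (B : ℝ) ^ T * Real.exp (-(ε ^ 2 / 2 * B)) < 1 / (8 * T) :=
    (pow_exp T hε2).eventually (gt_mem_nhds (by positivity))
  have e7 : ∀ᶠ B : ℕ in atTop, (B : ℝ) ^ (2 * K + T) * Real.exp (-(ε / 2 * B)) <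
      1 / (8 * (T : ℝ) ^ 3) :=
    (pow_exp (2 * K + T) (half_pos hε0)).eventually (gt_mem_nhds (by positivity))
  obtain ⟨B, h1, h2, h3, h4, h5, h6, h7, h8⟩ := (e1.and (e2.and (e3.and (e4.and (e5.and
    (e6.and (e7.and (eventually_ge_atTop 2)))))))).exists
  have hB0 : (0 : ℝ) < B := by exact_mod_cast (show 0 < B by omega)
  have hB1 : (1 : ℝ) ≤ B := by exact_mod_cast (show 1 ≤ B by omega)
  have hnn : (nn T B 0 : ℝ) = (B : ℝ) ^ K := by
    rw [hK]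
    unfold nn
    push_cast
    rw [Nat.sub_zero]
  have hx : ∀ x : ℝ, Real.exp (-(ε ^ 2 * x / 2)) = Real.exp (-(ε ^ 2 / 2 * x)) := by
    intro x
    congr 1
    ring
  refine ⟨B, hT, hε0, ?_, h1, h2, ?_, ?_, ?_, ?_⟩
  · rw [hε]
    apply le_of_eq
    field_simp
  · intro k hk
    have hmu : (mu B k : ℝ) = (B : ℝ) ^ (k + 1) := by
      unfold mu
      push_cast
      rfl
    rw [hnn, hmu, ← pow_mul]
    have h9 : (B : ℝ) ^ (K * ∑ j ∈ range k, mu B j) =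
        Real.exp (((K * ∑ j ∈ range k, mu B j : ℕ) : ℝ) * Real.log B) := by
      rw [Real.exp_nat_mul, Real.exp_log hB0]
    rw [h9, ← Real.exp_add, Real.exp_le_exp]
    rcases Nat.eq_zero_or_pos k with rfl | hk0
    · simp only [range_zero, sum_empty, mul_zero, Nat.cast_zero, zero_mul, zero_add, pow_one]
      have : 0 < ε ^ 2 * B := by positivity
      linarith
    · have hlog : 0 ≤ Real.log B := Real.log_natCast_nonneg B
      have h10 : ((K * ∑ j ∈ range k, mu B j : ℕ) : ℝ) ≤ (B : ℝ) ^ k * ((2 * K : ℕ) : ℝ) := by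
        have := Nat.mul_le_mul_left K (sum_mu (k := k) h8)
        have h11 : K * ∑ j ∈ range k, mu B j ≤ B ^ k * (2 * K) := by
          calc K * ∑ j ∈ range k, mu B j ≤ K * (2 * B ^ k) := this
            _ = B ^ k * (2 * K) := by ring
        exact_mod_cast h11
      have h12 : ((K * ∑ j ∈ range k, mu B j : ℕ) : ℝ) * Real.log B ≤
          (B : ℝ) ^ k * (ε ^ 2 / 2 * B) := by
        calc ((K * ∑ j ∈ range k, mu B j : ℕ) : ℝ) * Real.log B
            ≤ (B : ℝ) ^ k * ((2 * K : ℕ) : ℝ) * Real.log B := by gcongr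
          _ = (B : ℝ) ^ k * (((2 * K : ℕ) : ℝ) * Real.log B) := by ring
          _ ≤ (B : ℝ) ^ k * (ε ^ 2 / 2 * B) := by gcongr
      have h13 : (B : ℝ) ^ k * (ε ^ 2 / 2 * B) = ε ^ 2 / 2 * (B : ℝ) ^ (k + 1) := by ring
      have h14 : (B : ℝ) ≤ (B : ℝ) ^ (k + 1) := le_self_pow₀ hB1 (by omega)
      have h15 : ε ^ 2 / 2 * (B : ℝ) ≤ ε ^ 2 / 2 * (B : ℝ) ^ (k + 1) := by gcongr
      rw [h13] at h12
      linarith
  · rw [hx]
    rw [pow_zero, one_mul] at h4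
    linarith
  · rw [hx]
    rw [pow_zero, one_mul] at h5
    have : (T : ℝ) * Real.exp (-(ε ^ 2 / 2 * B)) ≤ T * (1 / (2 * T)) := by gcongr
    calc (T : ℝ) * Real.exp (-(ε ^ 2 / 2 * B)) ≤ T * (1 / (2 * T)) := this
      _ = 1 / 2 := by field_simp
  · rw [hx, hnn]
    have hx2 : Real.exp (-(ε * (B : ℝ) / 2)) = Real.exp (-(ε / 2 * B)) := by
      congr 1
      ring
    rw [hx2]
    have hBT : (0 : ℝ) < (B : ℝ) ^ T := by positivity
    rw [le_div_iff₀ (by positivity)]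
    have a1 : (T : ℝ) * ((B : ℝ) ^ T * Real.exp (-(ε ^ 2 / 2 * B))) ≤ T * (1 / (8 * T)) := by
      gcongr
    have a2 : (T : ℝ) * (1 / (8 * T)) = 1 / 8 := by field_simp
    have a3 : (T : ℝ) ^ 3 * ((B : ℝ) ^ (2 * K + T) * Real.exp (-(ε / 2 * B))) ≤
        (T : ℝ) ^ 3 * (1 / (8 * (T : ℝ) ^ 3)) := by gcongr
    have a4 : (T : ℝ) ^ 3 * (1 / (8 * (T : ℝ) ^ 3)) = 1 / 8 := by field_simp
    have a5 : ((T : ℝ) * Real.exp (-(ε ^ 2 / 2 * B)) + (B : ℝ) ^ K * T *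
        (T * T * (B : ℝ) ^ K * Real.exp (-(ε / 2 * B)))) * (4 * (B : ℝ) ^ T) =
        4 * ((T : ℝ) * ((B : ℝ) ^ T * Real.exp (-(ε ^ 2 / 2 * B)))) +
        4 * ((T : ℝ) ^ 3 * ((B : ℝ) ^ (2 * K + T) * Real.exp (-(ε / 2 * B)))) := by
      ring
    rw [a5]
    linarith

end Pool.Agent.K3h82.CA
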